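import Pool.Agent.Results.MP_604659_al.OddStructure

/-!
# Bounded virtual rank in residually finite groups whose infinite-index subgroups are finite

If such a group is not cyclic-by-finite, all its subgroups of finite index contain subgroups of
finite index with a bounded number of generators; for p-groups the finite subgroups near the
identity are arranged like the components of a partition.
-/

set_option autoImplicit false

namespace Pool.Agent.Results.MP_604659_al.BoundedRank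

open Pool.Agent.Results.MP_604659_al

variable {G : Type*} [Group G]

/-- A subgroup all of whose finitely generated subgroups are finite is finite. -/
lemma finite_of_locFin (hfg : Group.FG G)
    (hF : ∀ H : Subgroup G, H.index = 0 → (H : Set G).Finite) (H : Subgroup G)
    (hloc : ∀ S : Finset G, (S : Set G) ⊆ H → (Subgroup.closure (S : Set G) : Set G).Finite) :
    (H : Set G).Finite := by
  by_contra hH
  have h0 : H.index ≠ 0 := fun h0 => hH (hF H h0)
  have : H.FiniteIndex := ⟨h0⟩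
  have hHfg : Group.FG H := Subgroup.fg_of_index_ne_zero H
  obtain ⟨S, hS⟩ := (Group.fg_iff_subgroup_fg H).mp hHfg
  apply hH
  have h1 := hloc S (by rw [← hS]; exact Subgroup.subset_closure)
  rw [hS] at h1
  exact h1

/-- Every finite subgroup of `N` lies in a maximal finite subgroup of `N`. -/
lemma exists_max (hfg : Group.FG G)
    (hF : ∀ H : Subgroup G, H.index = 0 → (H : Set G).Finite) (N A : Subgroup G)
    (hAN : A ≤ N) (hA : (A : Set G).Finite) :
    ∃ M : Subgroup G, A ≤ M ∧ M ≤ N ∧ (M : Set G).Finite ∧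
      ∀ M' : Subgroup G, M ≤ M' → M' ≤ N → (M' : Set G).Finite → M' ≤ M := by
  obtain ⟨M, hAM, hM⟩ := zorn_le_nonempty₀ {M : Subgroup G | M ≤ N ∧ (M : Set G).Finite}
    (fun c hc hch y hy => by
      refine ⟨sSup c, ⟨sSup_le fun z hz => (hc hz).1, ?_⟩, fun z hz => le_sSup hz⟩
      have hdir : DirectedOn (· ≤ ·) c := hch.directedOn
      refine finite_of_locFin hfg hF _ fun S hS => ?_
      have h1 : (S : Set G) ⊆ ⋃ M ∈ c, (M : Set G) := by
        intro s hs
        obtain ⟨M, hM, hsM⟩ := (Subgroup.mem_sSup_of_directedOn ⟨y, hy⟩ hdir).mp (hS hs)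
        exact Set.mem_biUnion hM hsM
      obtain ⟨M, hM, hSM⟩ := DirectedOn.exists_mem_subset_of_finset_subset_biUnion
        (f := fun M : Subgroup G => (M : Set G)) ⟨y, hy⟩ hdir h1
      exact (hc hM).2.subset ((Subgroup.closure_le M).mpr hSM)) A ⟨hAN, hA⟩
  exact ⟨M, hAM, hM.prop.1, hM.prop.2, fun M' h1 h2 h3 => hM.le_of_ge ⟨h2, h3⟩ h1⟩

/-- The normalizer of a finite subgroup containing an element with finite centralizer is finite. -/
lemma normalizer_finite (D : Subgroup G) (hD : (D : Set G).Finite) (d : G) (hd : d ∈ D)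
    (hc : (Subgroup.centralizer ({d} : Set G) : Set G).Finite) :
    (Subgroup.normalizer (D : Set G) : Set G).Finite := by
  have hsub : (Subgroup.normalizer (D : Set G) : Set G) ⊆
      ⋃ e ∈ (D : Set G), {g : G | g * d * g⁻¹ = e} := by
    intro g hg
    have h1 : g * d * g⁻¹ ∈ D := ((Subgroup.mem_normalizer_iff.mp hg) d).mp hd
    exact Set.mem_biUnion h1 rfl
  refine (hD.biUnion fun e _ => ?_).subset hsub
  rcases Set.eq_empty_or_nonempty {g : G | g * d * g⁻¹ = e} with h | ⟨g0, hg0⟩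
  · rw [h]; exact Set.finite_empty
  · refine (hc.image (fun c => g0 * c)).subset ?_
    intro g hg
    refine ⟨g0⁻¹ * g, ?_, by simp⟩
    have h1 : g * d * g⁻¹ = g0 * d * g0⁻¹ := by
      exact (show g * d * g⁻¹ = e from hg).trans (show g0 * d * g0⁻¹ = e from hg0).symm
    have h2 : g0⁻¹ * g * d = d * (g0⁻¹ * g) := by
      have := congrArg (fun w => g0⁻¹ * w * g) h1
      simp only [mul_assoc, inv_mul_cancel, mul_one] at this
      rw [← mul_assoc g0⁻¹ g0, inv_mul_cancel, one_mul] at this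
      simpa [mul_assoc] using this
    exact Subgroup.mem_centralizer_singleton_iff.mpr h2

/-- Normalizers grow in finite p-groups. -/
lemma grow {p : ℕ} (hp : p.Prime) (M D : Subgroup G) (hM : (M : Set G).Finite)
    (hpM : IsPGroup p M) (hDM : D ≤ M) (hne : ¬ M ≤ D) :
    ∃ x ∈ M, x ∉ D ∧ x ∈ Subgroup.normalizer (D : Set G) := by
  have : Fact p.Prime := ⟨hp⟩
  have : Finite M := hM.to_subtype
  have hnil : Group.IsNilpotent M := hpM.isNilpotent
  have hnc : NormalizerCondition M := Group.normalizerCondition_of_isNilpotent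
  have hlt : D.subgroupOf M < ⊤ := by
    refine lt_top_iff_ne_top.mpr fun h => hne ?_
    exact Subgroup.subgroupOf_eq_top.mp h
  have h1 := hnc _ hlt
  obtain ⟨x, hx1, hx2⟩ := SetLike.exists_of_lt h1
  refine ⟨(x : G), x.2, fun h => hx2 (Subgroup.mem_subgroupOf.mpr h), ?_⟩
  rw [Subgroup.mem_normalizer_iff]
  rw [Subgroup.mem_normalizer_iff] at hx1
  intro h
  constructor
  · intro hh
    exact (hx1 ⟨h, hDM hh⟩).mp hh
  · intro hh
    have h2 : h ∈ M := by
      have h3 := mul_mem (mul_mem (inv_mem x.2) (hDM hh)) x.2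
      simpa [mul_assoc] using h3
    exact (hx1 ⟨h, h2⟩).mpr hh

/-- `M` is a maximal finite subgroup of `N`. -/
def MaxFin (N M : Subgroup G) : Prop :=
  M ≤ N ∧ (M : Set G).Finite ∧ ∀ M' : Subgroup G, M ≤ M' → M' ≤ N → (M' : Set G).Finite → M' ≤ M

/-- Maximal finite subgroups with a nontrivial intersection are comparable. -/
lemma max_comparable (hfg : Group.FG G)
    (hF : ∀ H : Subgroup G, H.index = 0 → (H : Set G).Finite) (N : Subgroup G)
    (hcent : ∀ g ∈ N, g ≠ 1 → (Subgroup.centralizer ({g} : Set G) : Set G).Finite)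
    {p : ℕ} (hp : p.Prime) (hpN : ∀ H : Subgroup G, H ≤ N → IsPGroup p H)
    (M₁ : Subgroup G) (h₁ : MaxFin N M₁) :
    ∀ k : ℕ, ∀ M₂ : Subgroup G, MaxFin N M₂ → M₁ ⊓ M₂ ≠ ⊥ →
      (M₁ : Set G).ncard ≤ ((M₁ ⊓ M₂ : Subgroup G) : Set G).ncard + k → M₁ ≤ M₂ := by
  intro k
  induction k with
  | zero =>
    intro M₂ h₂ hne hcard
    have hsub : ((M₁ ⊓ M₂ : Subgroup G) : Set G) ⊆ (M₁ : Set G) := fun x hx => hx.1
    have h := Set.eq_of_subset_of_ncard_le hsub (by simpa using hcard) h₁.2.1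
    intro x hx
    have hx' : x ∈ ((M₁ ⊓ M₂ : Subgroup G) : Set G) := by rw [h]; exact hx
    exact hx'.2
  | succ k ih =>
    intro M₂ h₂ hne hcard
    by_contra hnle
    have hD1 : M₁ ⊓ M₂ ≤ M₁ := inf_le_left
    have hD2 : M₁ ⊓ M₂ ≤ M₂ := inf_le_right
    have hn1 : ¬ M₁ ≤ M₁ ⊓ M₂ := fun h => hnle (h.trans hD2)
    have hn2 : ¬ M₂ ≤ M₁ ⊓ M₂ := fun h => hnle (h₂.2.2 M₁ (h.trans hD1) h₁.1 h₁.2.1)
    obtain ⟨x, hx1, hx2, hx3⟩ := grow hp M₁ (M₁ ⊓ M₂) h₁.2.1 (hpN _ h₁.1) hD1 hn1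
    obtain ⟨y, hy1, hy2, hy3⟩ := grow hp M₂ (M₁ ⊓ M₂) h₂.2.1 (hpN _ h₂.1) hD2 hn2
    obtain ⟨d, hd1⟩ := Subgroup.ne_bot_iff_exists_ne_one.mp hne
    have hdN : (d : G) ∈ N := h₁.1 (hD1 d.2)
    have hd1' : (d : G) ≠ 1 := fun h => hd1 (Subtype.ext h)
    have hDf : ((M₁ ⊓ M₂ : Subgroup G) : Set G).Finite := h₁.2.1.subset hD1
    have hPf := normalizer_finite (M₁ ⊓ M₂) hDf (d : G) d.2 (hcent _ hdN hd1')
    have hPf' : ((Subgroup.normalizer ((M₁ ⊓ M₂ : Subgroup G) : Set G) ⊓ N : Subgroup G) :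
        Set G).Finite := hPf.subset (fun z hz => hz.1)
    obtain ⟨M₃, hP3, h3N, h3f, h3m⟩ := exists_max hfg hF N _ inf_le_right hPf'
    have hDP : M₁ ⊓ M₂ ≤ Subgroup.normalizer ((M₁ ⊓ M₂ : Subgroup G) : Set G) ⊓ N :=
      le_inf Subgroup.le_normalizer (hD1.trans h₁.1)
    have hx4 : x ∈ M₃ := hP3 ⟨hx3, h₁.1 hx1⟩
    have hy4 : y ∈ M₃ := hP3 ⟨hy3, h₂.1 hy1⟩
    have hlt : ((M₁ ⊓ M₂ : Subgroup G) : Set G) ⊂ ((M₁ ⊓ M₃ : Subgroup G) : Set G) := by
      refine ⟨fun z hz => ⟨hz.1, hP3 (hDP hz)⟩, fun h => hx2 (h ⟨hx1, hx4⟩)⟩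
    have hf3 : ((M₁ ⊓ M₃ : Subgroup G) : Set G).Finite := h₁.2.1.subset (fun z hz => hz.1)
    have hc := Set.ncard_lt_ncard hlt hf3
    have hne3 : M₁ ⊓ M₃ ≠ ⊥ := by
      intro h
      have hd3 : (d : G) ∈ M₁ ⊓ M₃ := hlt.1 d.2
      rw [h] at hd3
      exact hd1' (Subgroup.mem_bot.mp hd3)
    have h4 := ih M₃ ⟨h3N, h3f, h3m⟩ hne3 (by omega)
    have h5 : M₃ ≤ M₁ := h₁.2.2 M₃ h4 h3N h3f
    exact hy2 ⟨h5 hy4, hy1⟩

/-- Every finite subgroup of `N` which meets the maximal finite subgroup `M` nontrivially lies in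
`M`. -/
lemma le_of_meets (hfg : Group.FG G)
    (hF : ∀ H : Subgroup G, H.index = 0 → (H : Set G).Finite) (N : Subgroup G)
    (hcent : ∀ g ∈ N, g ≠ 1 → (Subgroup.centralizer ({g} : Set G) : Set G).Finite)
    {p : ℕ} (hp : p.Prime) (hpN : ∀ H : Subgroup G, H ≤ N → IsPGroup p H)
    (M : Subgroup G) (hM : MaxFin N M) (A : Subgroup G) (hAN : A ≤ N) (hA : (A : Set G).Finite)
    (hne : A ⊓ M ≠ ⊥) : A ≤ M := by
  obtain ⟨M', hAM, h1, h2, h3⟩ := exists_max hfg hF N A hAN hA
  refine hAM.trans ?_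
  refine max_comparable hfg hF N hcent hp hpN M' ⟨h1, h2, h3⟩ (M' : Set G).ncard M hM ?_
    (Nat.le_add_left _ _)
  intro h
  apply hne
  rw [eq_bot_iff, ← h]
  exact inf_le_inf_right M hAM

/-- The product of a finite subgroup with a finite subgroup normalizing it. -/
lemma sup_finite (L M : Subgroup G) (hL : (L : Set G).Finite) (hM : (M : Set G).Finite)
    (hn : ∀ m ∈ M, ∀ l ∈ L, m * l * m⁻¹ ∈ L) : ((L ⊔ M : Subgroup G) : Set G).Finite := by
  let K : Subgroup G :=
    { carrier := Set.image2 (fun l m => l * m) (L : Set G) (M : Set G)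
      one_mem' := ⟨1, L.one_mem, 1, M.one_mem, mul_one 1⟩
      mul_mem' := by
        rintro _ _ ⟨l, hl, m, hm, rfl⟩ ⟨l', hl', m', hm', rfl⟩
        exact ⟨l * (m * l' * m⁻¹), L.mul_mem hl (hn m hm l' hl'), m * m', M.mul_mem hm hm',
          by group⟩
      inv_mem' := by
        rintro _ ⟨l, hl, m, hm, rfl⟩
        refine ⟨m⁻¹ * l⁻¹ * m⁻¹⁻¹, hn _ (M.inv_mem hm) _ (L.inv_mem hl), m⁻¹, M.inv_mem hm, ?_⟩
        group }
  have hK : (K : Set G).Finite := hL.image2 _ hM
  refine hK.subset ?_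
  have h1 : L ⊔ M ≤ K := by
    refine sup_le (fun l hl => ⟨l, hl, 1, M.one_mem, mul_one l⟩)
      (fun m hm => ⟨1, L.one_mem, m, hm, one_mul m⟩)
  exact h1

/-- If `M` is finite and `M` and `y` generate an infinite group, then the conjugates of `y` by the
elements of `M` generate a subgroup of finite index. -/
lemma conj_fi (hF : ∀ H : Subgroup G, H.index = 0 → (H : Set G).Finite) (M : Subgroup G)
    (hM : (M : Set G).Finite) (y : G)
    (hinf : ¬ (Subgroup.closure ((M : Set G) ∪ {y}) : Set G).Finite) :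
    (Subgroup.closure {z : G | ∃ m ∈ M, z = m * y * m⁻¹}).FiniteIndex := by
  refine ⟨fun h0 => hinf ?_⟩
  set L := Subgroup.closure {z : G | ∃ m ∈ M, z = m * y * m⁻¹} with hLdef
  have hL := hF L h0
  have hn : ∀ m ∈ M, ∀ l ∈ L, m * l * m⁻¹ ∈ L := by
    intro m hm l hl
    have h1 : L ≤ L.comap (MulAut.conj m).toMonoidHom := by
      rw [hLdef, Subgroup.closure_le]
      rintro _ ⟨m', hm', rfl⟩
      refine Subgroup.subset_closure ⟨m * m', M.mul_mem hm hm', ?_⟩
      simp [mul_assoc]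
    have h2 := h1 hl
    simpa using h2
  refine (sup_finite L M hL hM hn).subset ?_
  have h1 : Subgroup.closure ((M : Set G) ∪ {y}) ≤ L ⊔ M := by
    rw [Subgroup.closure_le]
    rintro z (hz | hz)
    · exact Subgroup.mem_sup_right hz
    · refine Subgroup.mem_sup_left (Subgroup.subset_closure ⟨1, M.one_mem, ?_⟩)
      rw [Set.mem_singleton_iff.mp hz]
      simp
  exact h1

/-- The main statement. -/
theorem result (G : Type*) [Group G]
    (hRF : ∀ g : G, g ≠ 1 → ∃ N : Subgroup G, N.Normal ∧ N.FiniteIndex ∧ g ∉ N)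
    (hF : ∀ H : Subgroup G, H.index = 0 → (H : Set G).Finite) :
    (∃ C : Subgroup G, IsCyclic C ∧ C.FiniteIndex) ∨
    ((∃ D : ℕ, ∀ K : Subgroup G, K.FiniteIndex → ∃ S : Finset G, S.card ≤ D ∧ (S : Set G) ⊆ K ∧
        (Subgroup.closure (S : Set G)).FiniteIndex) ∧
      ∀ (p : ℕ) (P : Subgroup G), p.Prime → IsPGroup p P → P.FiniteIndex →
        (∀ K : Subgroup G, K.FiniteIndex → ∃ S : Finset G, S.card ≤ p ∧ (S : Set G) ⊆ K ∧
          (Subgroup.closure (S : Set G)).FiniteIndex) ∧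
        ∃ N : Subgroup G, N.Normal ∧ N.FiniteIndex ∧ N ≤ P ∧
          (∀ A B : Subgroup G, A ≤ N → B ≤ N → (A : Set G).Finite → (B : Set G).Finite →
            A ⊓ B ≠ ⊥ → ((A ⊔ B : Subgroup G) : Set G).Finite) ∧
          (∀ x ∈ N, x ≠ 1 → ∃ K : Subgroup G, K.Normal ∧ K.FiniteIndex ∧ ∀ y ∈ K, y ≠ 1 →
            (Subgroup.closure {z : G | ∃ i : ℕ, z = x ^ i * y * (x ^ i)⁻¹}).FiniteIndex)) := by
  classical
  rcases OddStructure.result G hRF hF with h | ⟨hinf, hfg, htor, N0, hN0, hN0f, hN0c, -⟩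
  · exact Or.inl h
  right
  constructor
  · obtain ⟨M, -, -, hMf, hMm⟩ := exists_max hfg hF (⊤ : Subgroup G) ⊥ bot_le (by simp)
    obtain ⟨K1, hK1, hK1f, hK1M⟩ := OddStructure.avoid_set hRF _ hMf
    refine ⟨hMf.toFinset.card, fun K hK => ?_⟩
    have hfi : (K.normalCore ⊓ K1).FiniteIndex := inferInstance
    obtain ⟨y, hy, hy1⟩ := (OddStructure.infinite_of_fi _ hfi).exists_notMem_finite
      (Set.finite_singleton (1 : G))
    have hy1' : y ≠ 1 := hy1
    refine ⟨hMf.toFinset.image (fun m => m * y * m⁻¹), Finset.card_image_le, ?_, ?_⟩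
    · intro z hz
      rw [Finset.mem_coe, Finset.mem_image] at hz
      obtain ⟨m, -, rfl⟩ := hz
      exact K.normalCore_le (K.normalCore_normal.conj_mem y hy.1 m)
    · have h1 : ((hMf.toFinset.image (fun m => m * y * m⁻¹) : Finset G) : Set G) =
          {z : G | ∃ m ∈ M, z = m * y * m⁻¹} := by
        ext z
        simp [eq_comm]
      rw [h1]
      refine conj_fi hF M hMf y fun hfin => ?_
      have h2 := hMm _ (fun z hz => Subgroup.subset_closure (Or.inl hz)) le_top hfin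
      exact hy1' (hK1M y (h2 (Subgroup.subset_closure (Or.inr rfl))) hy.2)
  · intro p P hp hpP hPf
    have hfiN : (N0 ⊓ P.normalCore).FiniteIndex := inferInstance
    have hNP : N0 ⊓ P.normalCore ≤ P := inf_le_right.trans P.normalCore_le
    have hpN : ∀ H : Subgroup G, H ≤ N0 ⊓ P.normalCore → IsPGroup p H := fun H hH =>
      hpP.to_le (hH.trans hNP)
    have hcent : ∀ g ∈ N0 ⊓ P.normalCore, g ≠ 1 →
        (Subgroup.centralizer ({g} : Set G) : Set G).Finite := fun g hg hg1 =>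
      (hN0c g hg.1 hg1).2
    -- the main point about conjugates
    have key : ∀ x ∈ N0 ⊓ P.normalCore, x ≠ 1 → ∃ K : Subgroup G, K.Normal ∧ K.FiniteIndex ∧
        ∀ y ∈ K, y ≠ 1 →
          (Subgroup.closure {z : G | ∃ i : ℕ, z = x ^ i * y * (x ^ i)⁻¹}).FiniteIndex := by
      intro x hx hx1
      have hxf : (Subgroup.zpowers x : Set G).Finite := finite_zpowers.mpr (htor x)
      have hxN : Subgroup.zpowers x ≤ N0 ⊓ P.normalCore := by
        rw [Subgroup.zpowers_le]; exact hx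
      obtain ⟨M, hxM, hMN, hMf, hMm⟩ := exists_max hfg hF (N0 ⊓ P.normalCore) _ hxN hxf
      obtain ⟨K1, hK1, hK1f, hK1M⟩ := OddStructure.avoid_set hRF _ hMf
      refine ⟨K1 ⊓ (N0 ⊓ P.normalCore), inferInstance, inferInstance, fun y hy hy1 => ?_⟩
      have h1 : {z : G | ∃ i : ℕ, z = x ^ i * y * (x ^ i)⁻¹} =
          {z : G | ∃ m ∈ Subgroup.zpowers x, z = m * y * m⁻¹} := by
        ext z
        constructor
        · rintro ⟨i, rfl⟩
          exact ⟨x ^ i, Subgroup.npow_mem_zpowers x i, rfl⟩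
        · rintro ⟨m, hm, rfl⟩
          obtain ⟨i, rfl⟩ := (htor x).mem_powers_iff_mem_zpowers.mpr hm
          exact ⟨i, rfl⟩
      rw [h1]
      refine conj_fi hF _ hxf y fun hfin => ?_
      set A := Subgroup.closure ((Subgroup.zpowers x : Set G) ∪ {y}) with hA
      have hAN : A ≤ N0 ⊓ P.normalCore := by
        rw [hA, Subgroup.closure_le]
        rintro z (hz | hz)
        · exact hxN hz
        · rw [Set.mem_singleton_iff.mp hz]; exact hy.2
      have hxA : x ∈ A := Subgroup.subset_closure (Or.inl (Subgroup.mem_zpowers x))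
      have hyA : y ∈ A := Subgroup.subset_closure (Or.inr rfl)
      have hne : A ⊓ M ≠ ⊥ := by
        intro h
        have h2 : x ∈ A ⊓ M := ⟨hxA, hxM (Subgroup.mem_zpowers x)⟩
        rw [h] at h2
        exact hx1 (Subgroup.mem_bot.mp h2)
      have h3 := le_of_meets hfg hF _ hcent hp hpN M ⟨hMN, hMf, hMm⟩ A hAN hfin hne
      exact hy1 (hK1M y (h3 hyA) hy.1)
    refine ⟨?_, N0 ⊓ P.normalCore, inferInstance, inferInstance, hNP, ?_, key⟩
    · intro K hK
      obtain ⟨g, hg, hg1⟩ := (OddStructure.infinite_of_fi _ hfiN).exists_notMem_finite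
        (Set.finite_singleton (1 : G))
      have hg1' : g ≠ 1 := hg1
      have hfact : Fact p.Prime := ⟨hp⟩
      have hdvd : p ∣ orderOf g := by
        obtain ⟨k, hk⟩ := hpP ⟨g, hNP hg⟩
        have hk' : g ^ p ^ k = 1 := by
          have := congrArg (fun z : P => (z : G)) hk
          simpa using this
        obtain ⟨j, -, hj⟩ := (Nat.dvd_prime_pow hp).mp (orderOf_dvd_of_pow_eq_one hk')
        rcases Nat.eq_zero_or_pos j with h0 | h0
        · exfalso
          rw [h0, pow_zero, orderOf_eq_one_iff] at hj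
          exact hg1' hj
        · rw [hj]; exact dvd_pow_self p (by omega)
      have hxo : orderOf (g ^ (orderOf g / p)) = p :=
        orderOf_pow_orderOf_div (htor g).orderOf_pos.ne' hdvd
      set x := g ^ (orderOf g / p) with hxdef
      have hxN : x ∈ N0 ⊓ P.normalCore := pow_mem hg _
      have hx1 : x ≠ 1 := by
        intro h
        rw [h, orderOf_one] at hxo
        exact hp.one_lt.ne hxo
      obtain ⟨K0, hK0, hK0f, hK0y⟩ := key x hxN hx1
      have hfi : (K.normalCore ⊓ K0).FiniteIndex := inferInstance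
      obtain ⟨y, hy, hy1⟩ := (OddStructure.infinite_of_fi _ hfi).exists_notMem_finite
        (Set.finite_singleton (1 : G))
      refine ⟨(Finset.range p).image (fun i => x ^ i * y * (x ^ i)⁻¹),
        Finset.card_image_le.trans (by simp), ?_, ?_⟩
      · intro z hz
        rw [Finset.mem_coe, Finset.mem_image] at hz
        obtain ⟨m, -, rfl⟩ := hz
        exact K.normalCore_le (K.normalCore_normal.conj_mem y hy.1 _)
      · have h1 : (((Finset.range p).image (fun i => x ^ i * y * (x ^ i)⁻¹) : Finset G) : Set G) =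
            {z : G | ∃ i : ℕ, z = x ^ i * y * (x ^ i)⁻¹} := by
          ext z
          simp only [Finset.coe_image, Set.mem_image, Finset.coe_range, Set.mem_Iio]
          constructor
          · rintro ⟨i, -, rfl⟩
            exact ⟨i, rfl⟩
          · rintro ⟨i, rfl⟩
            refine ⟨i % p, Nat.mod_lt _ hp.pos, ?_⟩
            have h2 : x ^ (i % p) = x ^ i := by
              rw [← hxo]; exact pow_mod_orderOf x i
            rw [h2]
        rw [h1]
        exact hK0y y hy.2 hy1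
    · intro A B hA hB hAf hBf hne
      obtain ⟨M, hBM, hMN, hMf, hMm⟩ := exists_max hfg hF _ B hB hBf
      have hne' : A ⊓ M ≠ ⊥ := by
        intro h
        apply hne
        rw [eq_bot_iff, ← h]
        exact inf_le_inf_left A hBM
      have h1 := le_of_meets hfg hF _ hcent hp hpN M ⟨hMN, hMf, hMm⟩ A hA hAf hne'
      exact hMf.subset (sup_le h1 hBM : A ⊔ B ≤ M)

end Pool.Agent.Results.MP_604659_al.BoundedRank
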