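import Mathlib

/-!
# Residually finite groups whose infinite-index subgroups are finite

Structure of a possible residually finite group with property (F) which is not cyclic-by-finite.
-/

set_option autoImplicit false

namespace Pool.Agent.Results.MP_604659_al.OddStructure

variable {G : Type*} [Group G]

/-- Finitely many nontrivial elements can be avoided by one normal subgroup of finite index. -/
lemma avoid (hRF : ∀ g : G, g ≠ 1 → ∃ N : Subgroup G, N.Normal ∧ N.FiniteIndex ∧ g ∉ N)
    (S : Finset G) (hS : (1 : G) ∉ S) :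
    ∃ N : Subgroup G, N.Normal ∧ N.FiniteIndex ∧ ∀ s ∈ S, s ∉ N := by
  classical
  induction S using Finset.induction_on with
  | empty => exact ⟨⊤, inferInstance, inferInstance, by simp⟩
  | insert a S ha ih =>
    have h1 : (1 : G) ∉ S := fun h => hS (Finset.mem_insert_of_mem h)
    have ha1 : a ≠ 1 := fun h => hS (by rw [← h]; exact Finset.mem_insert_self _ _)
    obtain ⟨N, hN, hNf, hNS⟩ := ih h1
    obtain ⟨M, hM, hMf, haM⟩ := hRF a ha1
    refine ⟨N ⊓ M, inferInstance, inferInstance, ?_⟩
    intro s hs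
    rw [Finset.mem_insert] at hs
    rcases hs with rfl | hs
    · exact fun h => haM h.2
    · exact fun h => hNS s hs h.1

/-- The same for a finite set. -/
lemma avoid_set (hRF : ∀ g : G, g ≠ 1 → ∃ N : Subgroup G, N.Normal ∧ N.FiniteIndex ∧ g ∉ N)
    (S : Set G) (hSf : S.Finite) :
    ∃ N : Subgroup G, N.Normal ∧ N.FiniteIndex ∧ ∀ s ∈ S, s ∈ N → s = 1 := by
  classical
  obtain ⟨N, h1, h2, h3⟩ := avoid hRF (hSf.toFinset.erase 1) (by simp)
  refine ⟨N, h1, h2, fun s hs hsN => ?_⟩
  by_contra hne
  exact h3 s (by simp [hne, hs]) hsN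

/-- An infinite residually finite group has normal subgroups of arbitrarily large finite index. -/
lemma bigIndex (hRF : ∀ g : G, g ≠ 1 → ∃ N : Subgroup G, N.Normal ∧ N.FiniteIndex ∧ g ∉ N)
    [Infinite G] (n : ℕ) : ∃ N : Subgroup G, N.Normal ∧ N.FiniteIndex ∧ n ≤ N.index := by
  classical
  obtain ⟨T, hT⟩ := Infinite.exists_subset_card_eq G n
  obtain ⟨N, h1, h2, h3⟩ := avoid_set hRF
    ((fun p : G × G => p.1⁻¹ * p.2) '' ((T : Set G) ×ˢ (T : Set G)))
    ((T.finite_toSet.prod T.finite_toSet).image _)
  refine ⟨N, h1, h2, ?_⟩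
  have hinj : Set.InjOn (fun x : G => (QuotientGroup.mk x : G ⧸ N)) (T : Set G) := by
    intro x hx y hy hxy
    have hmem : x⁻¹ * y ∈ N := QuotientGroup.eq.mp hxy
    have := h3 (x⁻¹ * y) ⟨(x, y), ⟨hx, hy⟩, rfl⟩ hmem
    exact (inv_mul_eq_one.mp this)
  have : Finite (G ⧸ N) := Subgroup.finite_quotient_of_finiteIndex
  have := Fintype.ofFinite (G ⧸ N)
  have h4 : (T.image (fun x : G => (QuotientGroup.mk x : G ⧸ N))).card = T.card :=
    Finset.card_image_of_injOn hinj
  calc n = T.card := hT.symm
    _ = (T.image (fun x : G => (QuotientGroup.mk x : G ⧸ N))).card := h4.symm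
    _ ≤ Fintype.card (G ⧸ N) := Finset.card_le_univ _
    _ = N.index := by rw [Subgroup.index, Nat.card_eq_fintype_card]

/-- A finite index subgroup of an infinite group is infinite. -/
lemma infinite_of_fi [Infinite G] (N : Subgroup G) (hN : N.FiniteIndex) :
    (N : Set G).Infinite := by
  intro hfin
  have : Finite N := hfin.to_subtype
  have h1 : Nat.card N * N.index = Nat.card G := N.card_mul_index
  have h2 : Nat.card G = 0 := Nat.card_eq_zero_of_infinite
  rw [h2] at h1
  rcases Nat.mul_eq_zero.mp h1 with h | h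
  · exact Nat.card_pos.ne' h
  · exact hN.index_ne_zero h

/-- One step of the construction of an infinite subgroup of infinite index. -/
lemma stepLemma (hRF : ∀ g : G, g ≠ 1 → ∃ N : Subgroup G, N.Normal ∧ N.FiniteIndex ∧ g ∉ N)
    [Infinite G] (hLF : ∀ S : Set G, S.Finite → (Subgroup.closure S : Set G).Finite)
    (F N : Subgroup G) (hF : (F : Set G).Finite) (hN : N.Normal) (hNf : N.FiniteIndex) (n : ℕ) :
    ∃ F' N' : Subgroup G, (F' : Set G).Finite ∧ N'.Normal ∧ N'.FiniteIndex ∧ F < F' ∧
      F' ≤ F ⊔ N ∧ N' ≤ N ∧ n ≤ (F' ⊔ N').index := by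
  have hNinf : (N : Set G).Infinite := infinite_of_fi N hNf
  obtain ⟨x, hxN, hxF⟩ := hNinf.exists_notMem_finite hF
  set F' : Subgroup G := Subgroup.closure ((F : Set G) ∪ {x}) with hF'
  have hF'fin : (F' : Set G).Finite := hLF _ (hF.union (Set.finite_singleton x))
  have : Finite F' := hF'fin.to_subtype
  obtain ⟨N0, hN0, hN0f, hidx⟩ := bigIndex hRF (n * Nat.card F')
  refine ⟨F', N ⊓ N0, hF'fin, inferInstance, inferInstance, ?_, ?_, inf_le_left, ?_⟩
  · refine lt_of_le_of_ne ?_ ?_
    · intro y hy
      exact Subgroup.subset_closure (Or.inl hy)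
    · intro h
      apply hxF
      have : x ∈ F' := Subgroup.subset_closure (Or.inr rfl)
      rw [← h] at this
      exact this
  · rw [hF', Subgroup.closure_le]
    rintro y (hy | hy)
    · exact Subgroup.mem_sup_left hy
    · rw [Set.mem_singleton_iff] at hy
      rw [hy]
      exact Subgroup.mem_sup_right hxN
  · have h1 : (N ⊓ N0).relIndex (F' ⊔ (N ⊓ N0)) * (F' ⊔ (N ⊓ N0)).index = (N ⊓ N0).index :=
      Subgroup.relIndex_mul_index le_sup_right
    rw [Subgroup.relIndex_sup_right] at h1
    have h2 : (N ⊓ N0).relIndex F' ≤ Nat.card F' :=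
      Nat.le_of_dvd Nat.card_pos (Subgroup.relIndex_dvd_card _ _)
    have h3 : N0.index ≤ (N ⊓ N0).index :=
      Nat.le_of_dvd (Nat.pos_of_ne_zero (inferInstance : (N ⊓ N0).FiniteIndex).index_ne_zero)
        (Subgroup.index_dvd_of_le inf_le_right)
    have h4 : n * Nat.card F' ≤ (F' ⊔ (N ⊓ N0)).index * Nat.card F' := by
      calc n * Nat.card F' ≤ N0.index := hidx
        _ ≤ (N ⊓ N0).index := h3
        _ = (N ⊓ N0).relIndex F' * (F' ⊔ (N ⊓ N0)).index := h1.symm
        _ ≤ Nat.card F' * (F' ⊔ (N ⊓ N0)).index := Nat.mul_le_mul_right _ h2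
        _ = _ := Nat.mul_comm _ _
    exact Nat.le_of_mul_le_mul_right h4 Nat.card_pos

/-- A state of the construction. -/
structure State (G : Type*) [Group G] where
  F : Subgroup G
  N : Subgroup G
  hF : (F : Set G).Finite
  hN : N.Normal
  hNf : N.FiniteIndex

/-- An infinite residually finite locally finite group has an infinite subgroup of infinite index. -/
lemma exists_infinite_coinfinite
    (hRF : ∀ g : G, g ≠ 1 → ∃ N : Subgroup G, N.Normal ∧ N.FiniteIndex ∧ g ∉ N)
    [Infinite G] (hLF : ∀ S : Set G, S.Finite → (Subgroup.closure S : Set G).Finite) :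
    ∃ B : Subgroup G, (B : Set G).Infinite ∧ B.index = 0 := by
  classical
  have hstep : ∀ (p : State G) (n : ℕ), ∃ q : State G, p.F < q.F ∧ q.F ≤ p.F ⊔ p.N ∧
      q.N ≤ p.N ∧ n ≤ (q.F ⊔ q.N).index := by
    intro p n
    obtain ⟨F', N', h1, h2, h3, h4, h5, h6, h7⟩ := stepLemma hRF hLF p.F p.N p.hF p.hN p.hNf n
    exact ⟨⟨F', N', h1, h2, h3⟩, h4, h5, h6, h7⟩
  choose nxt hn1 hn2 hn3 hn4 using hstep
  let p0 : State G := ⟨⊥, ⊤, by simp, inferInstance, inferInstance⟩
  let s : ℕ → State G := fun n => Nat.rec p0 (fun k p => nxt p k) n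
  have hs : ∀ n, s (n + 1) = nxt (s n) n := fun n => rfl
  have hFlt : ∀ n, (s n).F < (s (n + 1)).F := fun n => by rw [hs]; exact hn1 _ _
  have hFmono : StrictMono (fun n => (s n).F) := strictMono_nat_of_lt_succ hFlt
  have hle : ∀ n k, (s (n + k)).F ⊔ (s (n + k)).N ≤ (s n).F ⊔ (s n).N := by
    intro n k
    induction k with
    | zero => exact le_rfl
    | succ k ih =>
      refine le_trans ?_ ih
      have : s (n + (k + 1)) = nxt (s (n + k)) (n + k) := hs (n + k)
      rw [this]
      exact sup_le (hn2 _ _) ((hn3 _ _).trans le_sup_right)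
  refine ⟨⨆ n, (s n).F, ?_, ?_⟩
  · intro hfin
    have hsub : ∀ n, (((s n).F : Set G)) ⊆ ((⨆ n, (s n).F : Subgroup G) : Set G) :=
      fun n => (le_iSup (fun n => (s n).F) n : _)
    have hcard : ∀ n, n ≤ (((s n).F : Set G)).ncard := by
      intro n
      induction n with
      | zero => exact Nat.zero_le _
      | succ n ih =>
        have hlt : ((s n).F : Set G) ⊂ ((s (n + 1)).F : Set G) := hFlt n
        have := Set.ncard_lt_ncard hlt (s (n + 1)).hF
        omega
    have h1 := hcard ((((⨆ n, (s n).F : Subgroup G) : Set G)).ncard + 1)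
    have h2 := Set.ncard_le_ncard (hsub ((((⨆ n, (s n).F : Subgroup G) : Set G)).ncard + 1)) hfin
    omega
  · by_contra hne
    have hB : ∀ n, (⨆ n, (s n).F) ≤ (s n).F ⊔ (s n).N := by
      intro n
      refine iSup_le fun m => ?_
      rcases le_total m n with h | h
      · exact (hFmono.monotone h).trans le_sup_left
      · obtain ⟨k, rfl⟩ := Nat.exists_eq_add_of_le h
        exact le_sup_left.trans (hle n k)
    have h1 : (s ((⨆ n, (s n).F).index + 1 + 1)).F ⊔ (s ((⨆ n, (s n).F).index + 1 + 1)).N =
        (nxt (s ((⨆ n, (s n).F).index + 1)) ((⨆ n, (s n).F).index + 1)).F ⊔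
        (nxt (s ((⨆ n, (s n).F).index + 1)) ((⨆ n, (s n).F).index + 1)).N := rfl
    have h2 := hn4 (s ((⨆ n, (s n).F).index + 1)) ((⨆ n, (s n).F).index + 1)
    rw [← h1] at h2
    have h3 := Nat.le_of_dvd (Nat.pos_of_ne_zero hne)
      (Subgroup.index_dvd_of_le (hB ((⨆ n, (s n).F).index + 1 + 1)))
    omega

/-- A subgroup of finite index which is generated by a finite set makes the group finitely
generated. -/
lemma fg_of_closure (S : Set G) (hS : S.Finite) (h : (Subgroup.closure S).index ≠ 0) :
    Group.FG G := by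
  classical
  have : (Subgroup.closure S).FiniteIndex := ⟨h⟩
  have : Finite (G ⧸ Subgroup.closure S) := Subgroup.finite_quotient_of_finiteIndex
  rw [Group.fg_iff]
  refine ⟨S ∪ Set.range (fun q : G ⧸ Subgroup.closure S => q.out), ?_,
    hS.union (Set.finite_range _)⟩
  rw [eq_top_iff]
  intro g _
  have h1 : (g⁻¹ * (QuotientGroup.mk g : G ⧸ Subgroup.closure S).out) ∈ Subgroup.closure S := by
    rw [← QuotientGroup.eq]
    simp
  have h2 : g = (QuotientGroup.mk g : G ⧸ Subgroup.closure S).out *
      (g⁻¹ * (QuotientGroup.mk g : G ⧸ Subgroup.closure S).out)⁻¹ := by group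
  rw [h2]
  refine mul_mem ?_ (inv_mem ?_)
  · exact Subgroup.subset_closure (Or.inr ⟨_, rfl⟩)
  · exact Subgroup.closure_mono Set.subset_union_left h1

/-- The elements whose centralizer has finite index. -/
def fc (G : Type*) [Group G] : Subgroup G where
  carrier := {g | (Subgroup.centralizer ({g} : Set G)).index ≠ 0}
  one_mem' := by
    have : Subgroup.centralizer ({1} : Set G) = ⊤ := by
      ext x; simp [Subgroup.mem_centralizer_singleton_iff]
    simp [this]
  mul_mem' := by
    intro a b ha hb
    have hle : Subgroup.centralizer ({a} : Set G) ⊓ Subgroup.centralizer ({b} : Set G) ≤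
        Subgroup.centralizer ({a * b} : Set G) := by
      intro x hx
      rw [Subgroup.mem_inf, Subgroup.mem_centralizer_singleton_iff,
        Subgroup.mem_centralizer_singleton_iff] at hx
      rw [Subgroup.mem_centralizer_singleton_iff]
      rw [← mul_assoc, hx.1, mul_assoc, hx.2, mul_assoc]
    intro h0
    have h1 := Subgroup.index_inf_ne_zero ha hb
    have h2 := Subgroup.index_dvd_of_le hle
    rw [h0] at h2
    exact h1 (Nat.eq_zero_of_zero_dvd h2)
  inv_mem' := by
    intro a ha
    have : Subgroup.centralizer ({a⁻¹} : Set G) = Subgroup.centralizer ({a} : Set G) := by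
      ext x
      rw [Subgroup.mem_centralizer_singleton_iff, Subgroup.mem_centralizer_singleton_iff]
      constructor
      · intro h
        have := congrArg (fun z => a * z * a) h
        simpa [mul_assoc] using this.symm
      · intro h
        have := congrArg (fun z => a⁻¹ * z * a⁻¹) h
        simpa [mul_assoc] using this.symm
    simpa [this] using ha

lemma mem_fc {g : G} : g ∈ fc G ↔ (Subgroup.centralizer ({g} : Set G)).index ≠ 0 := Iff.rfl

/-- In a finitely generated torsion group, an FC-subgroup of finite index forces finiteness. -/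
lemma finite_of_fc [Group.FG G] (htor : ∀ g : G, IsOfFinOrder g) (h : (fc G).index ≠ 0) :
    Finite G := by
  classical
  have : (fc G).FiniteIndex := ⟨h⟩
  have hfg : Group.FG (fc G) := Subgroup.fg_of_index_ne_zero (fc G)
  obtain ⟨S, hS, hSf⟩ := Group.fg_iff.mp hfg
  -- the intersection of the centralizers of the generators
  have hfin : ∀ T : Finset (fc G),
      ∃ Z : Subgroup G, Z.index ≠ 0 ∧ ∀ z ∈ Z, ∀ t ∈ T, z * (t : G) = (t : G) * z := by
    intro T
    induction T using Finset.induction_on with
    | empty => exact ⟨⊤, by simp, by simp⟩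
    | insert a T ha ih =>
      obtain ⟨Z, hZ, hZT⟩ := ih
      refine ⟨Z ⊓ Subgroup.centralizer ({(a : G)} : Set G),
        Subgroup.index_inf_ne_zero hZ (mem_fc.mp a.2), ?_⟩
      intro z hz t ht
      rw [Finset.mem_insert] at ht
      rcases ht with rfl | ht
      · exact Subgroup.mem_centralizer_singleton_iff.mp hz.2
      · exact hZT z hz.1 t ht
  obtain ⟨Z, hZ, hZT⟩ := hfin hSf.toFinset
  have hcomm : ∀ z ∈ Z, ∀ d : fc G, z * (d : G) = (d : G) * z := by
    intro z hz d
    have hd : d ∈ Subgroup.closure S := by rw [hS]; trivial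
    induction hd using Subgroup.closure_induction with
    | mem x hx => exact hZT z hz x (by simpa using hx)
    | one => simp
    | mul x y _ _ hx hy =>
      push_cast
      rw [← mul_assoc, hx, mul_assoc, hy, mul_assoc]
    | inv x _ hx =>
      push_cast
      have := congrArg (fun w => (x : G)⁻¹ * w * (x : G)⁻¹) hx
      simpa [mul_assoc] using this.symm
  let A : Subgroup G := Z ⊓ fc G
  have hA : A.index ≠ 0 := Subgroup.index_inf_ne_zero hZ h
  have : A.FiniteIndex := ⟨hA⟩
  have : Group.FG A := Subgroup.fg_of_index_ne_zero A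
  let _ : CommGroup A :=
    { (inferInstance : Group A) with
      mul_comm := fun x y => Subtype.ext (hcomm x x.2.1 ⟨y, y.2.2⟩) }
  have hAt : ∀ a : A, IsOfFinOrder a := fun a =>
    (Submonoid.isOfFinOrder_coe (H := A.toSubmonoid) (x := a)).mp (htor (a : G))
  have hAf : Finite A := CommGroup.finite_of_fg_isMulTorsion A hAt
  have h1 : Nat.card A * A.index = Nat.card G := A.card_mul_index
  refine Nat.finite_of_card_ne_zero ?_
  rw [← h1]
  exact Nat.mul_ne_zero Nat.card_pos.ne' hA

/-- An involution acting on powers of an element which it inverts. -/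
lemma inv_pow' {t u : G} (ht : t * t = 1) (h : t * u * t = u⁻¹) (n : ℕ) :
    t * u ^ n * t = (u ^ n)⁻¹ := by
  have hti : t⁻¹ = t := inv_eq_of_mul_eq_one_left ht
  have h1 : (t * u * t⁻¹) ^ n = t * u ^ n * t⁻¹ := conj_pow
  rw [hti, h, inv_pow] at h1
  exact h1.symm

/-- If an involution has trivial centralizer in a normal torsion subgroup, then that subgroup has
no involutions. -/
lemma noInv (htor : ∀ g : G, IsOfFinOrder g) (M : Subgroup G) [hM : M.Normal] {t : G}
    (ht1 : t ≠ 1) (ht : t * t = 1) (hC : ∀ x ∈ M, x * t = t * x → x = 1) :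
    ∀ s ∈ M, s * s = 1 → s = 1 := by
  intro s hsM hs
  by_contra hs1
  have hti : t⁻¹ = t := inv_eq_of_mul_eq_one_left ht
  have hsi : s⁻¹ = s := inv_eq_of_mul_eq_one_left hs
  have htM : t ∉ M := fun h => ht1 (hC t h rfl)
  set d : G := t * s with hd
  have hdi : t * d * t = d⁻¹ := by
    rw [hd, mul_inv_rev, hti, hsi, ← mul_assoc, ht, one_mul]
  have hdd : d * d ∈ M := by
    have h1 : d * d = (t * s * t⁻¹) * s := by rw [hd, hti]; group
    rw [h1]
    exact mul_mem (hM.conj_mem s hsM t) hsM
  have hddj : ∀ j : ℕ, d ^ (2 * j) ∈ M := fun j => by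
    rw [pow_mul, pow_two]; exact pow_mem hdd j
  have htd : ∀ j : ℕ, t * d ^ (2 * j + 1) ∈ M := fun j => by
    have h1 : t * d ^ (2 * j + 1) = s * d ^ (2 * j) := by
      rw [pow_succ', hd, ← mul_assoc, ← mul_assoc, ht, one_mul]
    rw [h1]
    exact mul_mem hsM (hddj j)
  have hpos : 0 < orderOf d := (htor d).orderOf_pos
  rcases Nat.even_or_odd' (orderOf d) with ⟨k, hk | hk⟩
  · have hk0 : 0 < k := by omega
    have hkn : k < orderOf d := by omega
    have hz1 : d ^ k ≠ 1 := fun h => by
      have := Nat.le_of_dvd hk0 (orderOf_dvd_of_pow_eq_one h)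
      omega
    have hz2 : d ^ k * d ^ k = 1 := by
      rw [← pow_add, ← two_mul, ← hk, pow_orderOf_eq_one]
    have hzi : (d ^ k)⁻¹ = d ^ k := inv_eq_of_mul_eq_one_left hz2
    have hzt : t * d ^ k * t = d ^ k := by rw [inv_pow' ht hdi k, hzi]
    have hzc : d ^ k * t = t * d ^ k := by
      have := congrArg (fun w => t * w) hzt
      simp only [← mul_assoc] at this
      rw [ht, one_mul] at this
      exact this
    rcases Nat.even_or_odd' k with ⟨j, hj | hj⟩
    · exact hz1 (hC _ (by rw [hj]; exact hddj j) hzc)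
    · have h1 : t * d ^ k = 1 := by
        refine hC _ (by rw [hj]; exact htd j) ?_
        rw [mul_assoc, hzc, ← mul_assoc]
      have h2 : d ^ k = t := by
        have := congrArg (fun w => t * w) h1
        simp only [← mul_assoc] at this
        rw [ht, one_mul, mul_one] at this
        exact this
      have h3 : t * d = d * t := by
        rw [← h2]
        exact (Commute.pow_self d k).eq
      have h4 : s * t = t * s := by
        have := congrArg (fun w => t * w) h3
        rw [hd] at this
        simp only [← mul_assoc] at this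
        rw [ht, one_mul, one_mul] at this
        exact this.symm
      exact hs1 (hC s hsM h4)
  · have h1 : t * d ^ (2 * k + 1) ∈ M := htd k
    rw [← hk, pow_orderOf_eq_one, mul_one] at h1
    exact htM h1

/-- An involution with trivial centralizer in a normal torsion subgroup inverts that subgroup. -/
lemma inverts (htor : ∀ g : G, IsOfFinOrder g) (M : Subgroup G) [hM : M.Normal] {t : G}
    (ht1 : t ≠ 1) (ht : t * t = 1) (hC : ∀ x ∈ M, x * t = t * x → x = 1) :
    ∀ y ∈ M, t * y * t = y⁻¹ := by
  intro y hy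
  have hti : t⁻¹ = t := inv_eq_of_mul_eq_one_left ht
  have hno := noInv htor M ht1 ht hC
  set u : G := t * (y * t * y⁻¹) with hu
  have huM : u ∈ M := by
    have h1 : u = (t * y * t⁻¹) * y⁻¹ := by rw [hu, hti]; group
    rw [h1]
    exact mul_mem (hM.conj_mem y hy t) (inv_mem hy)
  have hui : t * u * t = u⁻¹ := by
    rw [hu, mul_inv_rev, mul_inv_rev, mul_inv_rev, hti, inv_inv]
    simp only [← mul_assoc]
    rw [ht, one_mul]
  have htu : y * t = t * u * y := by
    rw [hu]
    simp only [← mul_assoc]
    rw [ht, one_mul]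
    group
  have hpos : 0 < orderOf u := (htor u).orderOf_pos
  rcases Nat.even_or_odd' (orderOf u) with ⟨k, hk | hk⟩
  · exfalso
    have hk0 : 0 < k := by omega
    have hz2 : u ^ k * u ^ k = 1 := by
      rw [← pow_add, ← two_mul, ← hk, pow_orderOf_eq_one]
    have h1 := hno _ (pow_mem huM k) hz2
    have := Nat.le_of_dvd hk0 (orderOf_dvd_of_pow_eq_one h1)
    omega
  · set v : G := u ^ (k + 1) with hv
    have hvv : v * v = u := by
      rw [hv, ← pow_add, show k + 1 + (k + 1) = (2 * k + 1) + 1 by ring, pow_succ, ← hk,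
        pow_orderOf_eq_one, one_mul]
    have hvi : t * v * t = v⁻¹ := inv_pow' ht hui _
    have hvt : v * t = t * v⁻¹ := by
      rw [← hvi]
      simp only [← mul_assoc]
      rw [ht, one_mul]
    have h1 : v * y = 1 := by
      refine hC _ (mul_mem (pow_mem huM _) hy) ?_
      calc v * y * t = v * (y * t) := mul_assoc _ _ _
        _ = v * (t * u * y) := by rw [htu]
        _ = (v * t) * u * y := by simp only [mul_assoc]
        _ = (t * v⁻¹) * (v * v) * y := by rw [hvt, hvv]
        _ = t * (v * y) := by group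
    have h2 : y = v⁻¹ := eq_inv_of_mul_eq_one_right h1
    rw [h2, inv_inv, ← hvi]
    simp only [← mul_assoc]
    rw [ht, one_mul, mul_assoc, ht, mul_one]

/-- A group is torsion or has a cyclic subgroup of finite index, under property (F). -/
lemma torsion_of (hF : ∀ H : Subgroup G, H.index = 0 → (H : Set G).Finite)
    (hnc : ¬ ∃ C : Subgroup G, IsCyclic C ∧ C.FiniteIndex) (g : G) : IsOfFinOrder g := by
  by_contra hg
  refine hnc ⟨Subgroup.zpowers g, inferInstance, ⟨fun h0 => hg ?_⟩⟩
  have h1 := hF _ h0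
  exact finite_zpowers.mp h1

/-- The main statement. -/
theorem result (G : Type*) [Group G]
    (hRF : ∀ g : G, g ≠ 1 → ∃ N : Subgroup G, N.Normal ∧ N.FiniteIndex ∧ g ∉ N)
    (hF : ∀ H : Subgroup G, H.index = 0 → (H : Set G).Finite) :
    (∃ C : Subgroup G, IsCyclic C ∧ C.FiniteIndex) ∨
    (Infinite G ∧ Group.FG G ∧ (∀ g : G, IsOfFinOrder g) ∧
      ∃ N : Subgroup G, N.Normal ∧ N.FiniteIndex ∧
        (∀ g ∈ N, g ≠ 1 → Odd (orderOf g) ∧ (Subgroup.centralizer ({g} : Set G) : Set G).Finite) ∧
        (∀ K : Subgroup G, K ≤ N → K ≠ ⊥ → (Subgroup.normalizer (K : Set G)).FiniteIndex →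
          K.FiniteIndex)) := by
  classical
  by_cases hnc : ∃ C : Subgroup G, IsCyclic C ∧ C.FiniteIndex
  · exact Or.inl hnc
  right
  have htor : ∀ g : G, IsOfFinOrder g := torsion_of hF hnc
  have hinf : Infinite G := by
    by_contra hfin
    rw [not_infinite_iff_finite] at hfin
    exact hnc ⟨⊥, inferInstance, inferInstance⟩
  have hfg : Group.FG G := by
    by_contra hnfg
    have hLF : ∀ S : Set G, S.Finite → (Subgroup.closure S : Set G).Finite := by
      intro S hS
      by_contra hS2
      exact hnfg (fg_of_closure S hS (fun h0 => hS2 (hF _ h0)))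
    obtain ⟨B, hB1, hB2⟩ := exists_infinite_coinfinite hRF hLF
    exact hB1 (hF B hB2)
  have hfc : ((fc G : Subgroup G) : Set G).Finite := by
    by_contra hfc
    have h0 : (fc G).index ≠ 0 := fun h0 => hfc (hF _ h0)
    have : Finite G := finite_of_fc htor h0
    exact not_finite G
  obtain ⟨N, hN, hNf, hNfc⟩ := avoid_set hRF _ hfc
  have hcent : ∀ g ∈ N, g ≠ 1 → (Subgroup.centralizer ({g} : Set G) : Set G).Finite := by
    intro g hg hg1
    refine hF _ ?_
    by_contra h0
    exact hg1 (hNfc g h0 hg)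
  -- no involutions in N
  have hnoinv : ∀ t ∈ N, t * t = 1 → t = 1 := by
    intro t htN ht
    by_contra ht1
    obtain ⟨M, hM, hMf, hMc⟩ := avoid_set hRF _ (hcent t htN ht1)
    have hC : ∀ x ∈ M, x * t = t * x → x = 1 := fun x hx hxt =>
      hMc x (Subgroup.mem_centralizer_singleton_iff.mpr hxt) hx
    have hinv := inverts htor M ht1 ht hC
    have hab : ∀ x ∈ M, ∀ y ∈ M, x * y = y * x := by
      intro x hx y hy
      have h1 := hinv (x * y) (mul_mem hx hy)
      have h2 : t * (x * y) * t = (t * x * t) * (t * y * t) := by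
        have : (t * x * t) * (t * y * t) = t * x * (t * t) * y * t := by
          simp only [mul_assoc]
        rw [this, ht, mul_one]
        simp only [mul_assoc]
      rw [h2, hinv x hx, hinv y hy, mul_inv_rev] at h1
      have h3 := congrArg (fun w => w⁻¹) h1
      simp only [mul_inv_rev, inv_inv] at h3
      exact h3.symm
    have hMN : (M ⊓ N).FiniteIndex := inferInstance
    have hMNinf := infinite_of_fi (M ⊓ N) hMN
    obtain ⟨m, hm, hm1⟩ := hMNinf.exists_notMem_finite (Set.finite_singleton (1 : G))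
    have hmM : m ∈ M := hm.1
    have hmN : m ∈ N := hm.2
    have hm1' : m ≠ 1 := hm1
    refine hm1' (hNfc m ?_ hmN)
    have hle : M ≤ Subgroup.centralizer ({m} : Set G) := fun x hx =>
      Subgroup.mem_centralizer_singleton_iff.mpr (hab x hx m hmM)
    intro h0
    have h2 := Subgroup.index_dvd_of_le hle
    rw [h0] at h2
    exact hMf.index_ne_zero (Nat.eq_zero_of_zero_dvd h2)
  refine ⟨hinf, hfg, htor, N, hN, hNf, ?_, ?_⟩
  · intro g hg hg1
    refine ⟨?_, hcent g hg hg1⟩
    by_contra hodd
    rw [Nat.not_odd_iff_even] at hodd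
    obtain ⟨k, hk⟩ := hodd
    have hpos : 0 < orderOf g := (htor g).orderOf_pos
    have hk0 : 0 < k := by omega
    have h1 : g ^ k * g ^ k = 1 := by rw [← pow_add, ← hk, pow_orderOf_eq_one]
    have h2 := hnoinv _ (pow_mem hg k) h1
    have := Nat.le_of_dvd hk0 (orderOf_dvd_of_pow_eq_one h2)
    omega
  · intro K hKN hK1 hKn
    refine ⟨fun h0 => ?_⟩
    have hKf := hF K h0
    have hKfin : Finite K := hKf.to_subtype
    obtain ⟨g, hg1⟩ := Subgroup.ne_bot_iff_exists_ne_one.mp hK1
    have hker : (K.normalizerMonoidHom.ker).FiniteIndex := inferInstance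
    rw [Subgroup.normalizerMonoidHom_ker] at hker
    have h1 : (Subgroup.centralizer (K : Set G)).relIndex (Subgroup.normalizer (K : Set G)) ≠ 0 :=
      hker.index_ne_zero
    have h2 : (Subgroup.centralizer (K : Set G) ⊓ Subgroup.normalizer (K : Set G)).relIndex
        (Subgroup.normalizer (K : Set G)) * (Subgroup.normalizer (K : Set G)).index =
        (Subgroup.centralizer (K : Set G) ⊓ Subgroup.normalizer (K : Set G)).index :=
      Subgroup.relIndex_mul_index inf_le_right
    rw [Subgroup.inf_relIndex_right] at h2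
    have h3 : (Subgroup.centralizer (K : Set G) ⊓ Subgroup.normalizer (K : Set G)).index ≠ 0 := by
      rw [← h2]
      exact Nat.mul_ne_zero h1 hKn.index_ne_zero
    have hle : Subgroup.centralizer (K : Set G) ⊓ Subgroup.normalizer (K : Set G) ≤
        Subgroup.centralizer ({(g : G)} : Set G) :=
      inf_le_left.trans (Subgroup.centralizer_le (by simp))
    have h4 : (g : G) ∈ fc G := by
      rw [mem_fc]
      intro h5
      have h6 := Subgroup.index_dvd_of_le hle
      rw [h5] at h6
      exact h3 (Nat.eq_zero_of_zero_dvd h6)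
    have h7 := hNfc (g : G) h4 (hKN g.2)
    exact hg1 (Subtype.ext h7)

end Pool.Agent.Results.MP_604659_al.OddStructure
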